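import Mathlib
import Pool.Agent.Helper84.FL.Geom

/-!
# Selling reduction

Every lattice `A ℤ³` in `ℝ³` has an obtuse superbase.
-/

set_option autoImplicit false

open Finset
open scoped Matrix

namespace Pool.Agent.Helper24.SF

open Pool.Agent.Helper84.FL

/-- the image of an integer vector -/
noncomputable def im (A : Matrix (Fin 3) (Fin 3) ℝ) (z : Fin 3 → ℤ) : Fin 3 → ℝ :=
  A.mulVec fun m => (z m : ℝ)

theorem im_add (A : Matrix (Fin 3) (Fin 3) ℝ) (z w : Fin 3 → ℤ) :
    im A (z + w) = im A z + im A w := by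
  unfold im
  rw [← Matrix.mulVec_add]
  congr 1
  funext m
  simp

theorem im_zsmul (A : Matrix (Fin 3) (Fin 3) ℝ) (c : ℤ) (z : Fin 3 → ℤ) :
    im A (c • z) = (c : ℝ) • im A z := by
  unfold im
  rw [← Matrix.mulVec_smul]
  congr 1
  funext m
  simp

theorem im_zero (A : Matrix (Fin 3) (Fin 3) ℝ) : im A 0 = 0 := by
  have h := im_zsmul A 0 0
  simpa using h

theorem im_sum (A : Matrix (Fin 3) (Fin 3) ℝ) {ι : Type} (s : Finset ι) (g : ι → Fin 3 → ℤ) :
    im A (∑ l ∈ s, g l) = ∑ l ∈ s, im A (g l) := by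
  classical
  induction s using Finset.induction_on with
  | empty => simp [im_zero]
  | insert a s ha ih => rw [sum_insert ha, sum_insert ha, im_add, ih]

/-- finitely many lattice vectors of bounded length -/
theorem finite_ball (A : Matrix (Fin 3) (Fin 3) ℝ) (hA : A.det ≠ 0) (C : ℝ) :
    {z : Fin 3 → ℤ | im A z ⬝ᵥ im A z ≤ C}.Finite := by
  obtain ⟨N, hN⟩ := exists_nat_ge (∑ k, ∑ l, |A⁻¹ k l| * Real.sqrt C)
  refine Set.Finite.subset (Set.Finite.pi' (t := fun _ : Fin 3 => Set.Icc (-(N : ℤ)) N)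
    fun _ => Set.finite_Icc _ _) ?_
  intro z hz k
  have hz' : im A z ⬝ᵥ im A z ≤ C := hz
  have h1 : ∀ l, |im A z l| ≤ Real.sqrt C := by
    intro l
    rw [← Real.sqrt_sq_eq_abs]
    apply Real.sqrt_le_sqrt
    refine le_trans ?_ hz'
    unfold dotProduct
    rw [sq]
    exact single_le_sum (f := fun i => im A z i * im A z i) (fun i _ => mul_self_nonneg _)
      (mem_univ l)
  have h2 : A⁻¹.mulVec (im A z) = fun m => (z m : ℝ) := by
    unfold im
    rw [Matrix.mulVec_mulVec, Matrix.nonsing_inv_mul _ (isUnit_iff_ne_zero.2 hA),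
      Matrix.one_mulVec]
  have h3 : |(z k : ℝ)| ≤ N := by
    have h4 : (z k : ℝ) = ∑ l, A⁻¹ k l * im A z l := by
      have := congrFun h2 k
      rw [← this]
      rfl
    rw [h4]
    refine le_trans (abs_sum_le_sum_abs _ _) (le_trans ?_ hN)
    refine le_trans (sum_le_sum (g := fun l => |A⁻¹ k l| * Real.sqrt C) fun l _ => ?_) ?_
    · rw [abs_mul]
      exact mul_le_mul_of_nonneg_left (h1 l) (abs_nonneg _)
    · exact single_le_sum (f := fun k => ∑ l, |A⁻¹ k l| * Real.sqrt C)
        (fun i _ => sum_nonneg fun l _ => mul_nonneg (abs_nonneg _) (Real.sqrt_nonneg _))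
        (mem_univ k)
  rw [abs_le] at h3
  constructor
  · have := h3.1
    exact_mod_cast this
  · have := h3.2
    exact_mod_cast this

/-- the coefficients of a Selling step -/
def cf (i j m : Fin 4) : ℤ := 1 - (if m = i then 3 else 0) - (if m = j then 1 else 0)

/-- a Selling step -/
def step (f : Fin 4 → Fin 3 → ℤ) (i j : Fin 4) : Fin 4 → Fin 3 → ℤ :=
  fun m => f m + cf i j m • f i

theorem sum_cf (f : Fin 4 → Fin 3 → ℤ) (i j : Fin 4) :
    ∑ m, cf i j m • f m = (∑ m, f m) - 3 • f i - f j := by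
  simp only [cf, sub_smul, sum_sub_distrib, ite_smul, one_smul, zero_smul]
  simp

theorem superbase_step (f : Fin 4 → Fin 3 → ℤ) (hf : Superbase f) (i j : Fin 4) (hij : i ≠ j) :
    Superbase (step f i j) := by
  have hc : ∑ m, cf i j m = 0 := by
    simp only [cf, sum_sub_distrib]
    simp
  refine ⟨?_, ?_⟩
  · unfold step
    rw [sum_add_distrib, ← sum_smul, hf.sum, hc]
    simp
  · intro z
    obtain ⟨a, ha⟩ := hf.span z
    refine ⟨Function.update a i ((∑ m, a m * cf i j m) + a i), ?_⟩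
    have hii : cf i j i = -2 := by
      simp [cf, hij]
    have e1 : ∀ g : Fin 4 → Fin 3 → ℤ, ∀ t : ℤ, ∑ l, Function.update a i t l • g l =
        (∑ l, a l • g l) + (t - a i) • g i := by
      intro g t
      rw [← add_sum_erase _ _ (mem_univ i), ← add_sum_erase univ (fun l => a l • g l) (mem_univ i)]
      rw [Function.update_self]
      have : ∀ l ∈ univ.erase i, Function.update a i t l • g l = a l • g l := by
        intro l hl
        rw [Function.update_of_ne (ne_of_mem_erase hl)]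
      rw [sum_congr rfl this, sub_smul]
      abel
    rw [e1]
    unfold step
    have e2 : ∑ l, a l • (f l + cf i j l • f i) = z + (∑ l, a l * cf i j l) • f i := by
      simp only [smul_add, sum_add_distrib]
      rw [← ha, sum_smul]
      congr 1
      exact sum_congr rfl fun l _ => by rw [smul_smul]
    rw [e2, hii]
    funext k
    simp only [Pi.add_apply, Pi.smul_apply, smul_eq_mul]
    ring

/-- the sum of the squared lengths -/
noncomputable def tot (A : Matrix (Fin 3) (Fin 3) ℝ) (f : Fin 4 → Fin 3 → ℤ) : ℝ :=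
  ∑ m, im A (f m) ⬝ᵥ im A (f m)

theorem tot_step (A : Matrix (Fin 3) (Fin 3) ℝ) (f : Fin 4 → Fin 3 → ℤ) (hf : Superbase f)
    (i j : Fin 4) (hij : i ≠ j) :
    tot A (step f i j) = tot A f - 2 * (im A (f i) ⬝ᵥ im A (f j)) := by
  have hji : j ≠ i := hij.symm
  unfold tot step
  have e1 : ∀ m, im A (f m + cf i j m • f i) ⬝ᵥ im A (f m + cf i j m • f i) =
      im A (f m) ⬝ᵥ im A (f m) + 2 * (im A (cf i j m • f m) ⬝ᵥ im A (f i)) +
        ((cf i j m : ℝ) * (cf i j m : ℝ)) * (im A (f i) ⬝ᵥ im A (f i)) := by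
    intro m
    rw [im_add, im_zsmul, im_zsmul, add_dotProduct, dotProduct_add, dotProduct_add,
      smul_dotProduct, dotProduct_smul, smul_dotProduct, dotProduct_smul, smul_dotProduct,
      dotProduct_comm (im A (f i)) (im A (f m))]
    simp only [smul_eq_mul]
    ring
  rw [sum_congr rfl fun m _ => e1 m, sum_add_distrib, sum_add_distrib, ← mul_sum, ← sum_mul,
    ← sum_dotProduct, ← im_sum, sum_cf, hf.sum]
  have e2 : ∑ m, (cf i j m : ℝ) * (cf i j m : ℝ) = 6 := by
    have : ∀ m, (cf i j m : ℝ) * (cf i j m : ℝ) =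
        1 + (if m = i then 3 else 0) - (if m = j then 1 else 0) := by
      intro m
      unfold cf
      by_cases h1 : m = i
      · subst h1
        simp [hij]
        norm_num
      · by_cases h2 : m = j
        · subst h2
          simp [hji]
        · simp [h1, h2]
    rw [sum_congr rfl fun m _ => this m, sum_sub_distrib, sum_add_distrib]
    simp
    norm_num
  rw [e2]
  have e3 : im A (0 - 3 • f i - f j) = -(3 : ℝ) • im A (f i) + (-1 : ℝ) • im A (f j) := by
    have : (0 - 3 • f i - f j : Fin 3 → ℤ) = (-3 : ℤ) • f i + (-1 : ℤ) • f j := by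
      funext k
      simp
      ring
    rw [this, im_add, im_zsmul, im_zsmul]
    push_cast
    rfl
  rw [e3, add_dotProduct, smul_dotProduct, smul_dotProduct,
    dotProduct_comm (im A (f j)) (im A (f i))]
  simp only [smul_eq_mul]
  ring

/-- the standard superbase -/
def stdb : Fin 4 → Fin 3 → ℤ := ![![1, 0, 0], ![0, 1, 0], ![0, 0, 1], ![-1, -1, -1]]

theorem stdb_superbase : Superbase stdb := by
  refine ⟨?_, ?_⟩
  · funext k
    fin_cases k <;> simp [stdb, Fin.sum_univ_four]
  · intro z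
    refine ⟨![z 0, z 1, z 2, 0], ?_⟩
    funext k
    fin_cases k <;> simp [stdb, Fin.sum_univ_four]

/-- Selling: every lattice in dimension three has an obtuse superbase. -/
theorem selling (A : Matrix (Fin 3) (Fin 3) ℝ) (hA : A.det ≠ 0) :
    ∃ f : Fin 4 → Fin 3 → ℤ, Superbase f ∧ ∀ i j, i ≠ j →
      (A.mulVec fun m => (f i m : ℝ)) ⬝ᵥ (A.mulVec fun m => (f j m : ℝ)) ≤ 0 := by
  have hfin : {f : Fin 4 → Fin 3 → ℤ | Superbase f ∧ tot A f ≤ tot A stdb}.Finite := by
    refine Set.Finite.subset (Set.Finite.pi' (t := fun _ : Fin 4 =>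
      {z : Fin 3 → ℤ | im A z ⬝ᵥ im A z ≤ tot A stdb}) fun _ => finite_ball A hA _) ?_
    rintro f ⟨-, hf⟩ m
    refine le_trans ?_ hf
    exact single_le_sum (f := fun m => im A (f m) ⬝ᵥ im A (f m))
      (fun i _ => sum_nonneg fun k _ => mul_self_nonneg _) (mem_univ m)
  obtain ⟨f, ⟨hf, hle⟩, hmin⟩ := Set.exists_min_image _ (tot A) hfin ⟨stdb, stdb_superbase, le_rfl⟩
  refine ⟨f, hf, fun i j hij => ?_⟩
  by_contra hpos
  have hpos' : 0 < im A (f i) ⬝ᵥ im A (f j) := not_le.1 hpos
  have h1 := tot_step A f hf i j hij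
  have h2 := hmin (step f i j) ⟨superbase_step f hf i j hij, by linarith⟩
  linarith

end Pool.Agent.Helper24.SF
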